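import Mathlib

set_option autoImplicit false
open Matrix Complex
open scoped ComplexConjugate

namespace Pool.Agent.H34R5.Bourin

variable {n : ℕ}

/-- unitarily invariant seminorms. -/
structure UIN (N : Matrix (Fin n) (Fin n) ℂ → ℝ) : Prop where
  nonneg : ∀ X, 0 ≤ N X
  add : ∀ X Y, N (X + Y) ≤ N X + N Y
  smul : ∀ (c : ℂ) X, N (c • X) = ‖c‖ * N X
  inv : ∀ V₁ V₂ X : Matrix (Fin n) (Fin n) ℂ, V₁ * V₁ᴴ = 1 → V₂ * V₂ᴴ = 1 → N (V₁ * X * V₂) = N X

namespace UIN

variable {N : Matrix (Fin n) (Fin n) ℂ → ℝ}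

lemma zero (h : UIN N) : N 0 = 0 := by
  have := h.smul 0 0
  simpa using this

lemma left (h : UIN N) {V : Matrix (Fin n) (Fin n) ℂ} (hV : V * Vᴴ = 1)
    (X : Matrix (Fin n) (Fin n) ℂ) : N (V * X) = N X := by
  have := h.inv V 1 X hV (by simp)
  simpa using this

lemma right (h : UIN N) {V : Matrix (Fin n) (Fin n) ℂ} (hV : V * Vᴴ = 1)
    (X : Matrix (Fin n) (Fin n) ℂ) : N (X * V) = N X := by
  have := h.inv 1 V X (by simp) hV
  simpa using this

lemma smulr (h : UIN N) (c : ℝ) (hc : 0 ≤ c) (X : Matrix (Fin n) (Fin n) ℂ) :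
    N (c • X) = c * N X := by
  have h1 : c • X = (c : ℂ) • X := by
    ext i j; simp
  rw [h1, h.smul, Complex.norm_real, Real.norm_of_nonneg hc]

/-- norm attaining functional. -/
lemma exists_functional (h : UIN N) (X0 : Matrix (Fin n) (Fin n) ℂ) :
    ∃ φ : Matrix (Fin n) (Fin n) ℂ →ₗ[ℂ] ℂ, (∀ X, ‖φ X‖ ≤ N X) ∧ φ X0 = N X0 := by
  by_cases hX : X0 = 0
  · refine ⟨0, fun X => by simpa using h.nonneg X, ?_⟩
    rw [hX, h.zero]; simp
  · obtain ⟨g, hg1, hg2⟩ := exists_extension_of_le_sublinear
      (LinearPMap.mkSpanSingleton (K := ℝ) X0 (N X0) hX) N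
      (fun c hc x => h.smulr c hc.le x) h.add (by
        rintro ⟨x, hx⟩
        obtain ⟨c, rfl⟩ := Submodule.mem_span_singleton.1 hx
        have e : (LinearPMap.mkSpanSingleton (K := ℝ) X0 (N X0) hX) ⟨c • X0, hx⟩ = c * N X0 :=
          LinearPMap.mkSpanSingleton'_apply X0 (N X0) _ c hx
        rw [e]
        rcases le_total 0 c with hc | hc
        · change c * N X0 ≤ N (c • X0)
          rw [h.smulr c hc]
        · exact (mul_nonpos_of_nonpos_of_nonneg hc (h.nonneg _)).trans (h.nonneg _))
    have hgX : g X0 = N X0 := by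
      have := hg1 ⟨X0, Submodule.mem_span_singleton_self X0⟩
      rw [this]
      exact LinearPMap.mkSpanSingleton'_apply_self X0 (N X0) _ _
    have hlin : ∀ (a b : ℝ) (X : Matrix (Fin n) (Fin n) ℂ),
        g (((a : ℂ) + b * I) • X) = a * g X + b * g (I • X) := by
      intro a b X
      have e : ((a : ℂ) + b * I) • X = a • X + b • (I • X) := by
        ext i j
        simp [add_mul, mul_assoc]
      rw [e, map_add, map_smul, map_smul]
      simp
    let φ : Matrix (Fin n) (Fin n) ℂ →ₗ[ℂ] ℂ :=
      { toFun := fun X => (g X : ℂ) - I * g (I • X)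
        map_add' := fun X Y => by simp only [smul_add, map_add, ofReal_add]; ring
        map_smul' := fun c X => by
          have e1 : c = ((c.re : ℝ) : ℂ) + (c.im : ℝ) * I := (re_add_im c).symm
          have e2 : I • c • X = (((-c.im : ℝ) : ℂ) + (c.re : ℝ) * I) • X := by
            rw [smul_smul]
            congr 1
            conv_lhs => rw [e1]
            push_cast
            have := I_mul_I
            linear_combination (c.im : ℂ) * this
          have e3 : g (c • X) = c.re * g X + c.im * g (I • X) := by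
            conv_lhs => rw [e1]
            exact hlin _ _ _
          rw [e3, e2, hlin]
          simp only [RingHom.id_apply, smul_eq_mul]
          conv_rhs => rw [e1]
          push_cast
          have := I_mul_I
          linear_combination ((c.im : ℂ) * (g (I • X) : ℂ)) * this }
    have hre : ∀ X, (φ X).re = g X := by
      intro X
      change ((g X : ℂ) - I * g (I • X)).re = g X
      simp
    have hle : ∀ X, ‖φ X‖ ≤ N X := by
      intro X
      by_cases h0 : φ X = 0
      · rw [h0, norm_zero]; exact h.nonneg X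
      · have hne : (‖φ X‖ : ℂ) ≠ 0 := by
          simpa using h0
        set c : ℂ := conj (φ X) / ‖φ X‖ with hc
        have hc1 : ‖c‖ = 1 := by
          rw [hc, norm_div, Complex.norm_real, norm_norm]
          simp [h0]
        have h1 : φ (c • X) = (‖φ X‖ : ℂ) := by
          rw [map_smul, smul_eq_mul, hc, div_mul_eq_mul_div, mul_comm, Complex.mul_conj,
            Complex.normSq_eq_norm_sq]
          push_cast
          field_simp
        have h2 : ‖φ X‖ = g (c • X) := by
          rw [← hre, h1]; simp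
        rw [h2]
        refine (hg2 _).trans ?_
        rw [h.smul, hc1, one_mul]
    refine ⟨φ, hle, ?_⟩
    have h3 : (φ X0).re = N X0 := by rw [hre, hgX]
    have h4 := hle X0
    have h5 : (φ X0).im = 0 := by
      have h6 := Complex.sq_norm (φ X0)
      rw [Complex.normSq_apply] at h6
      have h7 : ‖φ X0‖ ^ 2 ≤ (N X0) ^ 2 := by
        have := norm_nonneg (φ X0)
        nlinarith
      rw [h3] at h6
      nlinarith [mul_self_nonneg (φ X0).im]
    apply Complex.ext
    · simpa using h3
    · simpa using h5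

end UIN

/-- scalar functions which are entire and bounded in the strip. -/
def Good (f : ℂ → ℂ) : Prop :=
  Differentiable ℂ f ∧ ∃ C, ∀ z : ℂ, 0 ≤ z.re → z.re ≤ 1 → ‖f z‖ ≤ C

lemma Good.add {f g : ℂ → ℂ} (hf : Good f) (hg : Good g) : Good fun z => f z + g z := by
  obtain ⟨h1, C, hC⟩ := hf
  obtain ⟨h2, D, hD⟩ := hg
  exact ⟨h1.add h2, C + D, fun z h0 h1 => (norm_add_le _ _).trans (add_le_add (hC z h0 h1)
    (hD z h0 h1))⟩

lemma Good.mul {f g : ℂ → ℂ} (hf : Good f) (hg : Good g) : Good fun z => f z * g z := by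
  obtain ⟨h1, C, hC⟩ := hf
  obtain ⟨h2, D, hD⟩ := hg
  refine ⟨h1.mul h2, C * D, fun z h0 h1 => ?_⟩
  rw [norm_mul]
  exact mul_le_mul (hC z h0 h1) (hD z h0 h1) (norm_nonneg _) ((norm_nonneg _).trans (hC z h0 h1))

lemma good_const (c : ℂ) : Good fun _ => c := ⟨differentiable_const c, ‖c‖, fun _ _ _ => le_rfl⟩

lemma good_sum {ι : Type*} (s : Finset ι) (f : ι → ℂ → ℂ) (h : ∀ i ∈ s, Good (f i)) :
    Good fun z => ∑ i ∈ s, f i z := by
  classical
  induction s using Finset.induction_on with
  | empty => simpa using good_const 0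
  | insert a s ha ih =>
    simp only [Finset.sum_insert ha]
    exact (h a (by simp)).add (ih fun i hi => h i (by simp [hi]))

lemma good_exp (c d α : ℝ) : Good fun z => Complex.exp (((c : ℂ) + d * z) * α) := by
  refine ⟨by fun_prop, Real.exp (|c * α| + |d * α|), fun z h0 h1 => ?_⟩
  rw [Complex.norm_exp]
  apply Real.exp_le_exp.2
  have : ((((c : ℂ) + d * z) * α)).re = c * α + d * α * z.re := by
    simp; ring
  rw [this]
  have h2 : d * α * z.re ≤ |d * α| := by
    calc d * α * z.re ≤ |d * α * z.re| := le_abs_self _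
      _ = |d * α| * |z.re| := abs_mul _ _
      _ ≤ |d * α| * 1 := by
        apply mul_le_mul_of_nonneg_left _ (abs_nonneg _)
        rw [abs_of_nonneg h0]; exact h1
      _ = |d * α| := mul_one _
  have h3 := le_abs_self (c * α)
  linarith

/-- matrix functions with good entries. -/
def GoodM (F : ℂ → Matrix (Fin n) (Fin n) ℂ) : Prop := ∀ i j, Good fun z => F z i j

lemma GoodM.add {F G : ℂ → Matrix (Fin n) (Fin n) ℂ} (hF : GoodM F) (hG : GoodM G) :
    GoodM fun z => F z + G z := fun i j => (hF i j).add (hG i j)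

lemma GoodM.mul {F G : ℂ → Matrix (Fin n) (Fin n) ℂ} (hF : GoodM F) (hG : GoodM G) :
    GoodM fun z => F z * G z := by
  intro i j
  simp only [Matrix.mul_apply]
  exact good_sum _ _ fun k _ => (hF i k).mul (hG k j)

lemma goodM_const (A : Matrix (Fin n) (Fin n) ℂ) : GoodM fun _ => A := fun _ _ => good_const _

lemma goodM_diag (c d : ℝ) (α : Fin n → ℝ) :
    GoodM fun z => diagonal fun i => Complex.exp (((c : ℂ) + d * z) * α i) := by
  intro i j
  by_cases h : i = j
  · subst h
    simpa using good_exp c d (α i)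
  · simpa [Matrix.diagonal_apply_ne _ h] using good_const 0

/-- three lines theorem for unitarily invariant norms. -/
lemma three {N : Matrix (Fin n) (Fin n) ℂ → ℝ} (h : UIN N)
    {F : ℂ → Matrix (Fin n) (Fin n) ℂ} (hF : GoodM F)
    (m : ℝ) (h0 : ∀ y : ℝ, N (F (y * I)) ≤ m) (h1 : ∀ y : ℝ, N (F (1 + y * I)) ≤ m) :
    N (F (1 / 2)) ≤ m := by
  obtain ⟨φ, hφ, hφ0⟩ := h.exists_functional (F (1 / 2))
  have hm : 0 ≤ m := (h.nonneg _).trans (h0 0)
  have hφs : ∀ X : Matrix (Fin n) (Fin n) ℂ, φ X = ∑ i, ∑ j, X i j * φ (Matrix.single i j 1) := by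
    intro X
    conv_lhs => rw [Matrix.matrix_eq_sum_single X]
    simp only [map_sum]
    refine Finset.sum_congr rfl fun i _ => Finset.sum_congr rfl fun j _ => ?_
    have : Matrix.single i j (X i j) = X i j • Matrix.single i j (1 : ℂ) := by
      rw [Matrix.smul_single, smul_eq_mul, mul_one]
    rw [this, map_smul, smul_eq_mul]
  have hG : Good fun z => φ (F z) := by
    have e : (fun z => φ (F z)) = fun z => ∑ i, ∑ j, F z i j * φ (Matrix.single i j 1) :=
      funext fun z => hφs (F z)
    rw [e]
    exact good_sum _ _ fun i _ => good_sum _ _ fun j _ => (hF i j).mul (good_const _)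
  obtain ⟨hd, C, hC⟩ := hG
  have key := Complex.HadamardThreeLines.norm_le_interp_of_mem_verticalClosedStrip₀₁'
    (fun z => φ (F z)) (z := (1 / 2 : ℂ)) (a := m) (b := m)
    (by simp [Complex.HadamardThreeLines.verticalClosedStrip]; norm_num)
    hd.diffContOnCl
    (by
      refine ⟨C, ?_⟩
      rintro _ ⟨z, hz, rfl⟩
      simp only [Complex.HadamardThreeLines.verticalClosedStrip, Set.mem_preimage,
        Set.mem_Icc] at hz
      exact hC z hz.1 hz.2)
    (by
      intro z hz
      have hz' : z.re = 0 := hz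
      have e : z = (z.im : ℂ) * I := by
        apply Complex.ext <;> simp [hz']
      refine (hφ _).trans ?_
      rw [e]; exact h0 _)
    (by
      intro z hz
      have hz' : z.re = 1 := hz
      have e : z = 1 + (z.im : ℂ) * I := by
        apply Complex.ext <;> simp [hz']
      refine (hφ _).trans ?_
      rw [e]; exact h1 _)
  simp only [hφ0] at key
  rw [Complex.norm_real, Real.norm_of_nonneg (h.nonneg _)] at key
  refine key.trans (le_of_eq ?_)
  have e2 : ((1 / 2 : ℂ)).re = 1 / 2 := by norm_num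
  rw [e2]
  rcases hm.eq_or_lt with hm | hm
  · rw [← hm]; norm_num
  · rw [← Real.rpow_add hm]; norm_num

end Pool.Agent.H34R5.Bourin
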