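import Mathlib
import Pool.Agent.H34R5.BourinA

set_option autoImplicit false
open Matrix Complex
open scoped ComplexConjugate ComplexOrder

namespace Pool.Agent.H34R5.Bourin

variable {n : ℕ}

/-- complex powers of `U diag(exp α) Uᴴ`. -/
noncomputable def pw (U : Matrix (Fin n) (Fin n) ℂ) (α : Fin n → ℝ) (z : ℂ) :
    Matrix (Fin n) (Fin n) ℂ :=
  U * diagonal (fun i => Complex.exp (z * α i)) * Uᴴ

variable {U : Matrix (Fin n) (Fin n) ℂ} {α : Fin n → ℝ}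

lemma uu (hU : U * Uᴴ = 1) : Uᴴ * U = 1 := mul_eq_one_comm.1 hU

lemma pw_mul (hU : U * Uᴴ = 1) (z w : ℂ) : pw U α z * pw U α w = pw U α (z + w) := by
  unfold pw
  have h := uu hU
  calc U * diagonal (fun i => Complex.exp (z * α i)) * Uᴴ *
      (U * diagonal (fun i => Complex.exp (w * α i)) * Uᴴ)
      = U * (diagonal (fun i => Complex.exp (z * α i)) * (Uᴴ * U) *
        diagonal (fun i => Complex.exp (w * α i))) * Uᴴ := by
          simp only [Matrix.mul_assoc]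
    _ = _ := by
      rw [h, Matrix.mul_one, diagonal_mul_diagonal]
      congr 3
      funext i
      rw [← Complex.exp_add]; congr 1; ring

lemma pw_zero (hU : U * Uᴴ = 1) : pw U α 0 = 1 := by
  unfold pw
  simp [hU]

lemma pw_star (z : ℂ) : (pw U α z)ᴴ = pw U α (conj z) := by
  unfold pw
  rw [conjTranspose_mul, conjTranspose_mul, conjTranspose_conjTranspose, diagonal_conjTranspose,
    Matrix.mul_assoc]
  congr 3
  funext i
  simp only [Pi.star_apply]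
  change conj (Complex.exp (z * α i)) = _
  rw [← Complex.exp_conj]
  simp

lemma pw_star_real (t : ℝ) : (pw U α (t : ℂ))ᴴ = pw U α t := by
  rw [pw_star, Complex.conj_ofReal]

lemma pw_unit (hU : U * Uᴴ = 1) (y : ℝ) : pw U α (y * I) * (pw U α (y * I))ᴴ = 1 := by
  rw [pw_star, pw_mul hU]
  have : (y : ℂ) * I + conj ((y : ℂ) * I) = 0 := by simp
  rw [this, pw_zero hU]

lemma goodM_pw (c d : ℝ) : GoodM fun z => pw U α ((c : ℂ) + d * z) := by
  unfold pw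
  exact ((goodM_const U).mul (goodM_diag c d α)).mul (goodM_const _)

lemma pw_isUnit (hU : U * Uᴴ = 1) (z : ℂ) : IsUnit (pw U α z) := by
  have h1 : pw U α z * pw U α (-z) = 1 := by rw [pw_mul hU, add_neg_cancel, pw_zero hU]
  have h2 : pw U α (-z) * pw U α z = 1 := by rw [pw_mul hU, neg_add_cancel, pw_zero hU]
  exact ⟨⟨_, _, h1, h2⟩, rfl⟩

lemma pw_posDef (hU : U * Uᴴ = 1) (t : ℝ) : (pw U α (t : ℂ)).PosDef := by
  have h : pw U α (t : ℂ) = (pw U α ((t / 2 : ℝ) : ℂ))ᴴ * pw U α ((t / 2 : ℝ) : ℂ) := by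
    rw [pw_star_real, pw_mul hU]
    congr 1; push_cast; ring
  rw [h]
  exact PosDef.conjTranspose_mul_self _
    (Matrix.mulVec_injective_of_isUnit (pw_isUnit hU _))

lemma exists_pw {S : Matrix (Fin n) (Fin n) ℂ} (hS : S.PosDef) :
    ∃ (Q : Matrix (Fin n) (Fin n) ℂ) (σ : Fin n → ℝ), Q * Qᴴ = 1 ∧ S = pw Q σ 1 := by
  refine ⟨(hS.1.eigenvectorUnitary : Matrix (Fin n) (Fin n) ℂ),
    fun i => Real.log (hS.1.eigenvalues i), ?_, ?_⟩
  · exact Unitary.coe_mul_star_self hS.1.eigenvectorUnitary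
  · conv_lhs => rw [hS.1.spectral_theorem]
    unfold pw
    rw [Unitary.conjStarAlgAut_apply]
    congr 3
    funext i
    rw [one_mul, ← Complex.ofReal_exp, Real.exp_log (hS.eigenvalues_pos i)]
    rfl

/-- three lines for `S^z Z S^(1-z)`. -/
lemma threeS {N : Matrix (Fin n) (Fin n) ℂ → ℝ} (h : UIN N) (hU : U * Uᴴ = 1)
    (Z : Matrix (Fin n) (Fin n) ℂ) :
    N (pw U α (1 / 2) * Z * pw U α (1 / 2)) ≤ max (N (pw U α 1 * Z)) (N (Z * pw U α 1)) := by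
  have hG : GoodM fun z : ℂ => pw U α (((0 : ℝ) : ℂ) + ((1 : ℝ) : ℂ) * z) * Z *
      pw U α (((1 : ℝ) : ℂ) + ((-1 : ℝ) : ℂ) * z) :=
    ((goodM_pw 0 1).mul (goodM_const Z)).mul (goodM_pw 1 (-1))
  have key := three h hG (max (N (pw U α 1 * Z)) (N (Z * pw U α 1))) (by
      intro y
      have e1 : ((0 : ℝ) : ℂ) + ((1 : ℝ) : ℂ) * (y * I) = y * I := by push_cast; ring
      have e2 : ((1 : ℝ) : ℂ) + ((-1 : ℝ) : ℂ) * (y * I) = 1 + ((-y : ℝ) : ℂ) * I := by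
        push_cast; ring
      rw [e1, e2, ← pw_mul hU 1]
      have e3 : pw U α (y * I) * Z * (pw U α 1 * pw U α (((-y : ℝ) : ℂ) * I)) =
          pw U α (y * I) * (Z * pw U α 1) * pw U α (((-y : ℝ) : ℂ) * I) := by
        simp only [Matrix.mul_assoc]
      rw [e3, h.inv _ _ _ (pw_unit hU y) (pw_unit hU (-y))]
      exact le_max_right _ _) (by
      intro y
      have e1 : ((0 : ℝ) : ℂ) + ((1 : ℝ) : ℂ) * (1 + y * I) = y * I + 1 := by push_cast; ring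
      have e2 : ((1 : ℝ) : ℂ) + ((-1 : ℝ) : ℂ) * (1 + y * I) = ((-y : ℝ) : ℂ) * I := by
        push_cast; ring
      rw [e1, e2, ← pw_mul hU _ 1]
      have e3 : pw U α (y * I) * pw U α 1 * Z * pw U α (((-y : ℝ) : ℂ) * I) =
          pw U α (y * I) * (pw U α 1 * Z) * pw U α (((-y : ℝ) : ℂ) * I) := by
        simp only [Matrix.mul_assoc]
      rw [e3, h.inv _ _ _ (pw_unit hU y) (pw_unit hU (-y))]
      exact le_max_left _ _)
  have e1 : ((0 : ℝ) : ℂ) + ((1 : ℝ) : ℂ) * (1 / 2) = 1 / 2 := by push_cast; ring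
  have e2 : ((1 : ℝ) : ℂ) + ((-1 : ℝ) : ℂ) * (1 / 2) = 1 / 2 := by push_cast; ring
  simp only [e1, e2] at key
  exact key

/-- contractions. -/
def Ctr (K : Matrix (Fin n) (Fin n) ℂ) : Prop := (1 - Kᴴ * K).PosSemidef

lemma ctr_of_pair {M₁ M₂ L₁ L₂ : Matrix (Fin n) (Fin n) ℂ} (hM : M₁ᴴ * M₁ + M₂ᴴ * M₂ = 1)
    (hL : L₁ᴴ * L₁ + L₂ᴴ * L₂ = 1) : Ctr (L₁ᴴ * M₁ + L₂ᴴ * M₂) := by
  set K := L₁ᴴ * M₁ + L₂ᴴ * M₂ with hK
  have hKs : Kᴴ = M₁ᴴ * L₁ + M₂ᴴ * L₂ := by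
    rw [hK]; simp [conjTranspose_add, conjTranspose_mul]
  have e : 1 - Kᴴ * K = (M₁ - L₁ * K)ᴴ * (M₁ - L₁ * K) + (M₂ - L₂ * K)ᴴ * (M₂ - L₂ * K) := by
    have e1 : (M₁ - L₁ * K)ᴴ * (M₁ - L₁ * K) + (M₂ - L₂ * K)ᴴ * (M₂ - L₂ * K) =
        (M₁ᴴ * M₁ + M₂ᴴ * M₂) - (M₁ᴴ * L₁ + M₂ᴴ * L₂) * K - Kᴴ * (L₁ᴴ * M₁ + L₂ᴴ * M₂) +
        Kᴴ * (L₁ᴴ * L₁ + L₂ᴴ * L₂) * K := by
      simp only [conjTranspose_sub, conjTranspose_mul]
      noncomm_ring
    rw [e1, hM, hL, ← hKs, ← hK]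
    noncomm_ring
  unfold Ctr
  rw [e]
  exact (posSemidef_conjTranspose_mul_self _).add (posSemidef_conjTranspose_mul_self _)

/-- polar decomposition of invertible matrices. -/
lemma polar {K : Matrix (Fin n) (Fin n) ℂ} (hK : IsUnit K) :
    ∃ (W Q : Matrix (Fin n) (Fin n) ℂ) (σ : Fin n → ℝ), W * Wᴴ = 1 ∧ Q * Qᴴ = 1 ∧
      K = W * pw Q σ ((1 / 2 : ℝ) : ℂ) ∧ Kᴴ * K = pw Q σ 1 := by
  have hP : (Kᴴ * K).PosDef :=
    PosDef.conjTranspose_mul_self _ (Matrix.mulVec_injective_of_isUnit hK)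
  obtain ⟨Q, σ, hQ, hS⟩ := exists_pw hP
  refine ⟨K * pw Q σ ((-(1 / 2) : ℝ) : ℂ), Q, σ, ?_, hQ, ?_, hS⟩
  · apply mul_eq_one_comm.1
    rw [conjTranspose_mul, pw_star_real]
    have : pw Q σ ((-(1 / 2) : ℝ) : ℂ) * Kᴴ * (K * pw Q σ ((-(1 / 2) : ℝ) : ℂ)) =
        pw Q σ ((-(1 / 2) : ℝ) : ℂ) * (Kᴴ * K) * pw Q σ ((-(1 / 2) : ℝ) : ℂ) := by
      simp only [Matrix.mul_assoc]
    rw [this, hS, pw_mul hQ, pw_mul hQ]
    have : (((-(1 / 2) : ℝ) : ℂ) + 1 + ((-(1 / 2) : ℝ) : ℂ)) = 0 := by push_cast; ring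
    rw [this, pw_zero hQ]
  · rw [Matrix.mul_assoc, pw_mul hQ]
    have : (((-(1 / 2) : ℝ) : ℂ) + ((1 / 2 : ℝ) : ℂ)) = 0 := by push_cast; ring
    rw [this, pw_zero hQ, Matrix.mul_one]

lemma UIN.starM {N : Matrix (Fin n) (Fin n) ℂ → ℝ} (h : UIN N) {M : Matrix (Fin n) (Fin n) ℂ}
    (hM : IsUnit M) : N Mᴴ = N M := by
  obtain ⟨W, Q, σ, hW, hQ, h1, -⟩ := polar hM
  rw [h1, h.left hW, conjTranspose_mul, pw_star_real]
  exact h.right (by rw [conjTranspose_conjTranspose]; exact uu hW) _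

/-- the unitary parts of a diagonal contraction. -/
lemma half_unit (hU : U * Uᴴ = 1) (c : Fin n → ℝ) (hc : ∀ i, c i ^ 2 ≤ 1) (s : ℝ)
    (hs : s ^ 2 = 1) :
    (U * diagonal (fun i => (c i : ℂ) + (s * Real.sqrt (1 - c i ^ 2) : ℝ) * I) * Uᴴ) *
    (U * diagonal (fun i => (c i : ℂ) + (s * Real.sqrt (1 - c i ^ 2) : ℝ) * I) * Uᴴ)ᴴ = 1 := by
  have h := uu hU
  rw [conjTranspose_mul, conjTranspose_mul, conjTranspose_conjTranspose, diagonal_conjTranspose]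
  calc _ = U * (diagonal (fun i => (c i : ℂ) + (s * Real.sqrt (1 - c i ^ 2) : ℝ) * I) *
        (Uᴴ * U) * diagonal (star fun i => (c i : ℂ) + (s * Real.sqrt (1 - c i ^ 2) : ℝ) * I)) *
        Uᴴ := by
          simp only [Matrix.mul_assoc]
    _ = U * 1 * Uᴴ := by
      rw [h, Matrix.mul_one, diagonal_mul_diagonal]
      congr 2
      rw [← diagonal_one]
      congr 1
      funext i
      simp only [Pi.star_apply, Pi.one_apply]
      change _ * conj ((c i : ℂ) + (s * Real.sqrt (1 - c i ^ 2) : ℝ) * I) = 1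
      rw [Complex.mul_conj]
      norm_cast
      rw [Complex.normSq_add_mul_I, mul_pow, hs, Real.sq_sqrt (by linarith [hc i])]
      ring
    _ = 1 := by rw [Matrix.mul_one, hU]

/-- invertible contractions. -/
lemma ctr_unit {N : Matrix (Fin n) (Fin n) ℂ → ℝ} (h : UIN N) {K : Matrix (Fin n) (Fin n) ℂ}
    (hK : IsUnit K) (hc : Ctr K) (X : Matrix (Fin n) (Fin n) ℂ) :
    N (K * X) ≤ N X ∧ N (X * K) ≤ N X := by
  obtain ⟨W, Q, σ, hW, hQ, h1, h2⟩ := polar hK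
  have hσ : ∀ i, Real.exp (σ i) ≤ 1 := by
    intro i
    have h3 := hc.conjTranspose_mul_mul_same Q
    have h4 : Qᴴ * (1 - Kᴴ * K) * Q = diagonal fun i => ((1 - Real.exp (σ i) : ℝ) : ℂ) := by
      rw [h2]
      unfold pw
      have h5 := uu hQ
      calc Qᴴ * (1 - Q * diagonal (fun i => Complex.exp (1 * (σ i : ℂ))) * Qᴴ) * Q
          = Qᴴ * Q - (Qᴴ * Q) * diagonal (fun i => Complex.exp (1 * (σ i : ℂ))) * (Qᴴ * Q) := by
            simp only [Matrix.mul_sub, Matrix.sub_mul, Matrix.mul_assoc, Matrix.mul_one,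
              Matrix.one_mul]
        _ = _ := by
          rw [h5, Matrix.one_mul, Matrix.mul_one, ← diagonal_one, diagonal_sub]
          congr 1
          funext i
          simp
    rw [h4] at h3
    have h5 := h3.diag_nonneg (i := i)
    rw [diagonal_apply_eq] at h5
    have h6 : (0 : ℝ) ≤ 1 - Real.exp (σ i) := by exact_mod_cast h5
    linarith
  set c : Fin n → ℝ := fun i => Real.exp (σ i / 2) with hcdef
  have hc2 : ∀ i, c i ^ 2 ≤ 1 := by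
    intro i
    have : c i ^ 2 = Real.exp (σ i) := by
      rw [hcdef]
      simp only
      rw [← Real.exp_nat_mul]
      congr 1; push_cast; ring
    rw [this]; exact hσ i
  set V₁ := Q * diagonal (fun i => (c i : ℂ) + ((1 : ℝ) * Real.sqrt (1 - c i ^ 2) : ℝ) * I) * Qᴴ
    with hV1
  set V₂ := Q * diagonal (fun i => (c i : ℂ) + ((-1 : ℝ) * Real.sqrt (1 - c i ^ 2) : ℝ) * I) * Qᴴ
    with hV2
  have u1 : V₁ * V₁ᴴ = 1 := half_unit hQ c hc2 1 (by norm_num)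
  have u2 : V₂ * V₂ᴴ = 1 := half_unit hQ c hc2 (-1) (by norm_num)
  have hP : pw Q σ ((1 / 2 : ℝ) : ℂ) = (1 / 2 : ℂ) • (V₁ + V₂) := by
    rw [hV1, hV2, ← Matrix.add_mul, ← Matrix.mul_add, diagonal_add, ← Matrix.smul_mul,
      ← Matrix.mul_smul]
    unfold pw
    congr 2
    rw [← diagonal_smul]
    congr 1
    funext i
    simp only [Pi.smul_apply, smul_eq_mul, hcdef]
    rw [Complex.ofReal_exp]
    push_cast
    have : (1 / 2 : ℂ) * (σ i : ℂ) = (σ i : ℂ) / 2 := by ring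
    rw [this]
    ring
  have hhalf : ‖(1 / 2 : ℂ)‖ = 1 / 2 := by norm_num
  constructor
  · rw [h1, Matrix.mul_assoc, h.left hW, hP, Matrix.smul_mul, h.smul, Matrix.add_mul, hhalf]
    have := h.add (V₁ * X) (V₂ * X)
    rw [h.left u1, h.left u2] at this
    linarith
  · rw [h1, ← Matrix.mul_assoc, hP, Matrix.mul_smul, h.smul, Matrix.mul_add, hhalf]
    have := h.add (X * W * V₁) (X * W * V₂)
    rw [h.right u1, h.right u2, h.right hW] at this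
    linarith

/-- all contractions. -/
lemma ctr_both {N : Matrix (Fin n) (Fin n) ℂ → ℝ} (h : UIN N) {K : Matrix (Fin n) (Fin n) ℂ}
    (hc : Ctr K) (X : Matrix (Fin n) (Fin n) ℂ) :
    N (K * X) ≤ N X ∧ N (X * K) ≤ N X := by
  -- for small ε the matrix K + ε is invertible
  have hex : ∀ δ : ℝ, 0 < δ → ∃ ε : ℝ, 0 < ε ∧ ε < δ ∧ IsUnit (K + (ε : ℂ) • (1 : Matrix _ _ ℂ)) := by
    intro δ hδ
    by_contra hcon
    push Not at hcon
    have hroot : ∀ ε ∈ Set.Ioo (0 : ℝ) δ, (-K).charpoly.IsRoot (ε : ℂ) := by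
      intro ε hε
      have h1 := hcon ε hε.1 hε.2
      rw [Matrix.isUnit_iff_isUnit_det, isUnit_iff_ne_zero, not_not] at h1
      rw [Polynomial.IsRoot.def, Matrix.eval_charpoly, ← h1]
      congr 1
      rw [sub_neg_eq_add, add_comm]
      congr 1
      ext i j
      simp [Matrix.scalar_apply, Matrix.diagonal_apply, Matrix.one_apply]
    have hinf : Set.Infinite {z : ℂ | (-K).charpoly.IsRoot z} := by
      have : ((fun x : ℝ => (x : ℂ)) '' Set.Ioo (0 : ℝ) δ) ⊆ {z : ℂ | (-K).charpoly.IsRoot z} := by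
        rintro _ ⟨ε, hε, rfl⟩
        exact hroot ε hε
      exact ((Set.Ioo_infinite hδ).image (Complex.ofReal_injective.injOn)).mono this
    have := Polynomial.eq_zero_of_infinite_isRoot _ hinf
    exact (Matrix.charpoly_monic (-K)).ne_zero this
  -- the perturbed contraction
  have hctr : ∀ ε : ℝ, 0 < ε → Ctr (((1 + ε : ℝ)⁻¹ : ℂ) • (K + (ε : ℂ) • (1 : Matrix _ _ ℂ))) := by
    intro ε hε
    have e : 1 - (((1 + ε : ℝ)⁻¹ : ℂ) • (K + (ε : ℂ) • (1 : Matrix _ _ ℂ)))ᴴ *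
        (((1 + ε : ℝ)⁻¹ : ℂ) • (K + (ε : ℂ) • (1 : Matrix _ _ ℂ))) =
        ((1 + ε : ℝ)⁻¹ : ℝ) • (1 - Kᴴ * K) +
        (ε * ((1 + ε : ℝ)⁻¹ ^ 2) : ℝ) • ((1 - K)ᴴ * (1 - K)) := by
      have h0 : ((1 + ε : ℝ) : ℂ) ≠ 0 := by
        have : (1 + ε : ℝ) ≠ 0 := by positivity
        exact_mod_cast this
      have h1 : (((1 + ε : ℝ)⁻¹ : ℂ) • (K + (ε : ℂ) • (1 : Matrix (Fin n) (Fin n) ℂ)))ᴴ =
          ((1 + ε : ℝ)⁻¹ : ℂ) • (Kᴴ + (ε : ℂ) • (1 : Matrix _ _ ℂ)) := by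
        rw [conjTranspose_smul, conjTranspose_add, conjTranspose_smul, conjTranspose_one]
        congr 1
        · simp
        · congr 2; simp
      rw [h1, conjTranspose_sub, conjTranspose_one]
      have h2 : ∀ (r : ℝ) (M : Matrix (Fin n) (Fin n) ℂ), r • M = (r : ℂ) • M := by
        intro r M; ext i j; simp
      rw [h2, h2]
      simp only [Matrix.smul_mul, Matrix.mul_smul, Matrix.add_mul, Matrix.mul_add, Matrix.sub_mul,
        Matrix.mul_sub, Matrix.one_mul, Matrix.mul_one, smul_add, smul_sub, smul_smul]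
      ext i j
      simp only [Matrix.sub_apply, Matrix.add_apply, Matrix.smul_apply, smul_eq_mul]
      push_cast at h0 ⊢
      field_simp
      ring
    unfold Ctr
    rw [e]
    have hp : (0 : ℝ) ≤ (1 + ε)⁻¹ := by positivity
    have hq : (0 : ℝ) ≤ ε * ((1 + ε : ℝ)⁻¹ ^ 2) := by positivity
    exact (PosSemidef.smul hc hp).add (PosSemidef.smul (posSemidef_conjTranspose_mul_self _) hq)
  have hN := h.nonneg
  have hdiff : ∀ ε : ℝ, 0 < ε → K = (((1 + ε : ℝ)⁻¹ : ℂ) • (K + (ε : ℂ) • (1 : Matrix _ _ ℂ))) +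
      ((ε * (1 + ε : ℝ)⁻¹ : ℝ) : ℂ) • (K - 1) := by
    intro ε hε
    have h0 : ((1 + ε : ℝ) : ℂ) ≠ 0 := by
      have : (1 + ε : ℝ) ≠ 0 := by positivity
      exact_mod_cast this
    ext i j
    simp only [Matrix.sub_apply, Matrix.add_apply, Matrix.smul_apply, smul_eq_mul]
    push_cast at h0 ⊢
    field_simp
    ring
  have hnorm : ∀ ε : ℝ, 0 < ε → ‖((ε * (1 + ε : ℝ)⁻¹ : ℝ) : ℂ)‖ ≤ ε := by
    intro ε hε
    rw [Complex.norm_real, Real.norm_of_nonneg (by positivity)]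
    have : (1 + ε : ℝ)⁻¹ ≤ 1 := inv_le_one_of_one_le₀ (by linarith)
    nlinarith
  have hunit : ∀ ε : ℝ, 0 < ε → IsUnit (K + (ε : ℂ) • (1 : Matrix _ _ ℂ)) →
      IsUnit (((1 + ε : ℝ)⁻¹ : ℂ) • (K + (ε : ℂ) • (1 : Matrix _ _ ℂ))) := by
    intro ε hε hu
    have h0 : (((1 + ε : ℝ) : ℂ)⁻¹) ≠ 0 := by
      have : (1 + ε : ℝ) ≠ 0 := by positivity
      exact inv_ne_zero (by exact_mod_cast this)
    exact hu.smul (Units.mk0 _ h0)
  constructor
  · refine le_of_forall_pos_le_add fun η hη => ?_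
    obtain ⟨ε, hε, hεδ, hu⟩ := hex (η / (N ((K - 1) * X) + 1)) (by
      have := hN ((K - 1) * X); positivity)
    have h1 := (ctr_unit h (hunit ε hε hu) (hctr ε hε) X).1
    have h2 : N (K * X) ≤ N ((((1 + ε : ℝ)⁻¹ : ℂ) • (K + (ε : ℂ) • (1 : Matrix _ _ ℂ))) * X) +
        ‖((ε * (1 + ε : ℝ)⁻¹ : ℝ) : ℂ)‖ * N ((K - 1) * X) := by
      conv_lhs => rw [hdiff ε hε]
      rw [Matrix.add_mul]
      refine (h.add _ _).trans ?_
      rw [Matrix.smul_mul _ (K - 1), h.smul]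
    have h3 : ‖((ε * (1 + ε : ℝ)⁻¹ : ℝ) : ℂ)‖ * N ((K - 1) * X) ≤ η := by
      have h4 := hN ((K - 1) * X)
      calc _ ≤ ε * N ((K - 1) * X) := mul_le_mul_of_nonneg_right (hnorm ε hε) h4
        _ ≤ ε * (N ((K - 1) * X) + 1) := by nlinarith
        _ ≤ η := by
          rw [lt_div_iff₀ (by positivity)] at hεδ
          exact hεδ.le
    linarith
  · refine le_of_forall_pos_le_add fun η hη => ?_
    obtain ⟨ε, hε, hεδ, hu⟩ := hex (η / (N (X * (K - 1)) + 1)) (by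
      have := hN (X * (K - 1)); positivity)
    have h1 := (ctr_unit h (hunit ε hε hu) (hctr ε hε) X).2
    have h2 : N (X * K) ≤ N (X * (((1 + ε : ℝ)⁻¹ : ℂ) • (K + (ε : ℂ) • (1 : Matrix _ _ ℂ)))) +
        ‖((ε * (1 + ε : ℝ)⁻¹ : ℝ) : ℂ)‖ * N (X * (K - 1)) := by
      conv_lhs => rw [hdiff ε hε]
      rw [Matrix.mul_add]
      refine (h.add _ _).trans ?_
      rw [Matrix.mul_smul X _ (K - 1), h.smul]
    have h3 : ‖((ε * (1 + ε : ℝ)⁻¹ : ℝ) : ℂ)‖ * N (X * (K - 1)) ≤ η := by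
      have h4 := hN (X * (K - 1))
      calc _ ≤ ε * N (X * (K - 1)) := mul_le_mul_of_nonneg_right (hnorm ε hε) h4
        _ ≤ ε * (N (X * (K - 1)) + 1) := by nlinarith
        _ ≤ η := by
          rw [lt_div_iff₀ (by positivity)] at hεδ
          exact hεδ.le
    linarith

/-- `N (S^(1/2) K S^(1/2)) ≤ N S` for contractions. -/
lemma ctr_mid {N : Matrix (Fin n) (Fin n) ℂ → ℝ} (h : UIN N) (hU : U * Uᴴ = 1)
    {K : Matrix (Fin n) (Fin n) ℂ} (hc : Ctr K) :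
    N (pw U α (1 / 2) * K * pw U α (1 / 2)) ≤ N (pw U α 1) :=
  (threeS h hU K).trans (max_le (ctr_both h hc _).2 (ctr_both h hc _).1)

end Pool.Agent.H34R5.Bourin
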