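import Mathlib
import Pool.Agent.H34R5.BourinB

set_option autoImplicit false
open Matrix Complex
open scoped ComplexConjugate ComplexOrder

namespace Pool.Agent.H34R5.Bourin

variable {n : ℕ} {U W : Matrix (Fin n) (Fin n) ℂ} {α β : Fin n → ℝ}

/-- `A^z + B^z`. -/
noncomputable def EE (U W : Matrix (Fin n) (Fin n) ℂ) (α β : Fin n → ℝ) (z : ℂ) :
    Matrix (Fin n) (Fin n) ℂ := pw U α z + pw W β z

lemma EE_posDef (hU : U * Uᴴ = 1) (hW : W * Wᴴ = 1) (t : ℝ) : (EE U W α β (t : ℂ)).PosDef :=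
  (pw_posDef hU t).add (pw_posDef hW t)

lemma EE_star (z : ℂ) : (EE U W α β z)ᴴ = EE U W α β (conj z) := by
  unfold EE
  rw [conjTranspose_add, pw_star, pw_star]

lemma goodM_EE (c d : ℝ) : GoodM fun z => EE U W α β ((c : ℂ) + d * z) :=
  (goodM_pw c d).add (goodM_pw c d)

lemma pw_eq {Q : Matrix (Fin n) (Fin n) ℂ} {σ : Fin n → ℝ} (hQ : Q * Qᴴ = 1) (z w v : ℂ)
    (h : z + w = v) : pw Q σ z * pw Q σ w = pw Q σ v := by
  rw [pw_mul hQ, h]

lemma pw_one {Q : Matrix (Fin n) (Fin n) ℂ} {σ : Fin n → ℝ} (hQ : Q * Qᴴ = 1) (z w : ℂ)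
    (h : z + w = 0) : pw Q σ z * pw Q σ w = 1 := by
  rw [pw_mul hQ, h, pw_zero hQ]

/-- products with reversed order have the same norm. -/
lemma swapEE {N : Matrix (Fin n) (Fin n) ℂ → ℝ} (h : UIN N) (hU : U * Uᴴ = 1) (hW : W * Wᴴ = 1)
    (s t : ℝ) : N (EE U W α β (s : ℂ) * EE U W α β (t : ℂ)) =
      N (EE U W α β (t : ℂ) * EE U W α β (s : ℂ)) := by
  have h1 : IsUnit (EE U W α β (t : ℂ) * EE U W α β (s : ℂ)) :=
    (EE_posDef hU hW t).isUnit.mul (EE_posDef hU hW s).isUnit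
  rw [← h.starM h1, conjTranspose_mul, EE_star, EE_star, Complex.conj_ofReal, Complex.conj_ofReal]

/-- the bound on a vertical line. -/
lemma bound {N : Matrix (Fin n) (Fin n) ℂ → ℝ} (h : UIN N) (hU : U * Uᴴ = 1) (hW : W * Wᴴ = 1)
    {Qs : Matrix (Fin n) (Fin n) ℂ} {σs : Fin n → ℝ} (hQs : Qs * Qsᴴ = 1)
    (hS : EE U W α β 1 = pw Qs σs 1) (s y : ℝ) :
    N (pw Qs σs ((-(1 / 2) : ℝ) : ℂ) * EE U W α β (3 / 2 - (s + y * I)) *
      EE U W α β (2 * (s + y * I)) * EE U W α β (3 / 2 - (s + y * I)) *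
      pw Qs σs ((-(1 / 2) : ℝ) : ℂ)) ≤
    N (EE U W α β ((2 * s : ℝ) : ℂ) * EE U W α β ((2 - 2 * s : ℝ) : ℂ)) := by
  set X := EE U W α β ((2 * s : ℝ) : ℂ) with hX
  set Y := EE U W α β ((2 - 2 * s : ℝ) : ℂ) with hY
  obtain ⟨Qy, σy, hQy, hYe⟩ := exists_pw (EE_posDef (α := α) (β := β) hU hW (2 - 2 * s))
  rw [← hY] at hYe
  set Sm := pw Qs σs ((-(1 / 2) : ℝ) : ℂ) with hSm
  set Yh := pw Qy σy ((1 / 2 : ℝ) : ℂ) with hYh
  set Ym := pw Qy σy ((-(1 / 2) : ℝ) : ℂ) with hYm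
  have hSms : Smᴴ = Sm := pw_star_real _
  have hYhs : Yhᴴ = Yh := pw_star_real _
  have hYms : Ymᴴ = Ym := pw_star_real _
  have hT : (Yh * X * Yh).PosDef := by
    have h1 := (EE_posDef (α := α) (β := β) hU hW (2 * s)).conjTranspose_mul_mul_same (B := Yh)
      (Matrix.mulVec_injective_of_isUnit (pw_isUnit hQy _))
    rwa [hYhs, ← hX] at h1
  obtain ⟨Qt, σt, hQt, hTe⟩ := exists_pw hT
  set Th := pw Qt σt ((1 / 2 : ℝ) : ℂ) with hTh
  set Tm := pw Qt σt ((-(1 / 2) : ℝ) : ℂ) with hTm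
  have hTms : Tmᴴ = Tm := pw_star_real _
  have hThTm : Th * Tm = 1 := pw_one hQt _ _ (by push_cast; ring)
  have hTmTh : Tm * Th = 1 := pw_one hQt _ _ (by push_cast; ring)
  have hYmYh : Ym * Yh = 1 := pw_one hQy _ _ (by push_cast; ring)
  have hYhYm : Yh * Ym = 1 := pw_one hQy _ _ (by push_cast; ring)
  set z : ℂ := s + y * I with hz
  -- the three contractions
  have i1 : Sm * EE U W α β 1 * Sm = 1 := by
    rw [hS, hSm, pw_mul hQs, pw_mul hQs]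
    have : ((-(1 / 2) : ℝ) : ℂ) + 1 + ((-(1 / 2) : ℝ) : ℂ) = 0 := by push_cast; ring
    rw [this, pw_zero hQs]
  have i2 : Ym * Y * Ym = 1 := by
    rw [hYe, hYm, pw_mul hQy, pw_mul hQy]
    have : ((-(1 / 2) : ℝ) : ℂ) + 1 + ((-(1 / 2) : ℝ) : ℂ) = 0 := by push_cast; ring
    rw [this, pw_zero hQy]
  have i3 : Tm * (Yh * X * Yh) * Tm = 1 := by
    rw [hTe, hTm, pw_mul hQt, pw_mul hQt]
    have : ((-(1 / 2) : ℝ) : ℂ) + 1 + ((-(1 / 2) : ℝ) : ℂ) = 0 := by push_cast; ring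
    rw [this, pw_zero hQt]
  -- first isometry pair
  have pS : (pw U α ((1 / 2 : ℝ) : ℂ) * Sm)ᴴ * (pw U α ((1 / 2 : ℝ) : ℂ) * Sm) +
      (pw W β ((1 / 2 : ℝ) : ℂ) * Sm)ᴴ * (pw W β ((1 / 2 : ℝ) : ℂ) * Sm) = 1 := by
    rw [conjTranspose_mul, conjTranspose_mul, hSms, pw_star_real, pw_star_real]
    calc _ = Sm * (pw U α ((1 / 2 : ℝ) : ℂ) * pw U α ((1 / 2 : ℝ) : ℂ) +
          pw W β ((1 / 2 : ℝ) : ℂ) * pw W β ((1 / 2 : ℝ) : ℂ)) * Sm := by noncomm_ring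
      _ = Sm * EE U W α β 1 * Sm := by
        rw [pw_eq hU _ _ 1 (by push_cast; ring), pw_eq hW _ _ 1 (by push_cast; ring)]
        rfl
      _ = 1 := i1
  have pYg : ∀ t : ℝ, (pw U α (1 - s + t * I) * Ym)ᴴ * (pw U α (1 - s + t * I) * Ym) +
      (pw W β (1 - s + t * I) * Ym)ᴴ * (pw W β (1 - s + t * I) * Ym) = 1 := by
    intro t
    rw [conjTranspose_mul, conjTranspose_mul, hYms, pw_star, pw_star]
    calc _ = Ym * (pw U α (conj (1 - s + t * I)) * pw U α (1 - s + t * I) +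
          pw W β (conj (1 - s + t * I)) * pw W β (1 - s + t * I)) * Ym := by noncomm_ring
      _ = Ym * Y * Ym := by
        rw [pw_eq hU _ _ ((2 - 2 * s : ℝ) : ℂ) (by simp; ring),
          pw_eq hW _ _ ((2 - 2 * s : ℝ) : ℂ) (by simp; ring)]
        rfl
      _ = 1 := i2
  have pTg : ∀ t : ℝ, (pw U α (s + t * I) * Yh * Tm)ᴴ * (pw U α (s + t * I) * Yh * Tm) +
      (pw W β (s + t * I) * Yh * Tm)ᴴ * (pw W β (s + t * I) * Yh * Tm) = 1 := by
    intro t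
    rw [conjTranspose_mul, conjTranspose_mul, conjTranspose_mul, conjTranspose_mul, hYhs, hTms,
      pw_star, pw_star]
    calc _ = Tm * (Yh * (pw U α (conj (s + t * I)) * pw U α (s + t * I) +
          pw W β (conj (s + t * I)) * pw W β (s + t * I)) * Yh) * Tm := by noncomm_ring
      _ = Tm * (Yh * X * Yh) * Tm := by
        rw [pw_eq hU _ _ ((2 * s : ℝ) : ℂ) (by simp; ring),
          pw_eq hW _ _ ((2 * s : ℝ) : ℂ) (by simp; ring)]
        rfl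
      _ = 1 := i3
  have c1 : Ctr (Sm * EE U W α β (3 / 2 - z) * Ym) := by
    have h1 := ctr_of_pair (pYg (-y)) pS
    have e : (pw U α ((1 / 2 : ℝ) : ℂ) * Sm)ᴴ * (pw U α (1 - s + ((-y : ℝ) : ℂ) * I) * Ym) +
        (pw W β ((1 / 2 : ℝ) : ℂ) * Sm)ᴴ * (pw W β (1 - s + ((-y : ℝ) : ℂ) * I) * Ym) =
        Sm * EE U W α β (3 / 2 - z) * Ym := by
      rw [conjTranspose_mul, conjTranspose_mul, hSms, pw_star_real, pw_star_real]
      calc _ = Sm * (pw U α ((1 / 2 : ℝ) : ℂ) * pw U α (1 - s + ((-y : ℝ) : ℂ) * I) +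
            pw W β ((1 / 2 : ℝ) : ℂ) * pw W β (1 - s + ((-y : ℝ) : ℂ) * I)) * Ym := by noncomm_ring
        _ = _ := by
          rw [pw_eq hU _ _ (3 / 2 - z) (by rw [hz]; push_cast; ring),
            pw_eq hW _ _ (3 / 2 - z) (by rw [hz]; push_cast; ring)]
          rfl
    rwa [e] at h1
  have c2 : Ctr (Ym * EE U W α β (3 / 2 - z) * Sm) := by
    have h1 := ctr_of_pair pS (pYg y)
    have e : (pw U α (1 - s + (y : ℂ) * I) * Ym)ᴴ * (pw U α ((1 / 2 : ℝ) : ℂ) * Sm) +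
        (pw W β (1 - s + (y : ℂ) * I) * Ym)ᴴ * (pw W β ((1 / 2 : ℝ) : ℂ) * Sm) =
        Ym * EE U W α β (3 / 2 - z) * Sm := by
      rw [conjTranspose_mul, conjTranspose_mul, hYms, pw_star, pw_star]
      calc _ = Ym * (pw U α (conj (1 - s + (y : ℂ) * I)) * pw U α ((1 / 2 : ℝ) : ℂ) +
            pw W β (conj (1 - s + (y : ℂ) * I)) * pw W β ((1 / 2 : ℝ) : ℂ)) * Sm := by noncomm_ring
        _ = _ := by
          rw [pw_eq hU _ _ (3 / 2 - z) (by rw [hz]; simp; ring),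
            pw_eq hW _ _ (3 / 2 - z) (by rw [hz]; simp; ring)]
          rfl
    rwa [e] at h1
  have c3 : Ctr (Tm * Yh * EE U W α β (2 * z) * Yh * Tm) := by
    have h1 := ctr_of_pair (pTg (2 * y)) (pTg 0)
    have e : (pw U α (s + ((0 : ℝ) : ℂ) * I) * Yh * Tm)ᴴ *
          (pw U α (s + ((2 * y : ℝ) : ℂ) * I) * Yh * Tm) +
        (pw W β (s + ((0 : ℝ) : ℂ) * I) * Yh * Tm)ᴴ *
          (pw W β (s + ((2 * y : ℝ) : ℂ) * I) * Yh * Tm) =
        Tm * Yh * EE U W α β (2 * z) * Yh * Tm := by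
      rw [conjTranspose_mul, conjTranspose_mul, conjTranspose_mul, conjTranspose_mul, hYhs, hTms,
        pw_star, pw_star]
      calc _ = Tm * Yh * (pw U α (conj (s + ((0 : ℝ) : ℂ) * I)) *
              pw U α (s + ((2 * y : ℝ) : ℂ) * I) +
            pw W β (conj (s + ((0 : ℝ) : ℂ) * I)) * pw W β (s + ((2 * y : ℝ) : ℂ) * I)) *
              Yh * Tm := by noncomm_ring
        _ = _ := by
          rw [pw_eq hU _ _ (2 * z) (by rw [hz]; simp; ring),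
            pw_eq hW _ _ (2 * z) (by rw [hz]; simp; ring)]
          rfl
    rwa [e] at h1
  -- factorisation
  have hfac : Sm * EE U W α β (3 / 2 - z) * EE U W α β (2 * z) * EE U W α β (3 / 2 - z) * Sm =
      (Sm * EE U W α β (3 / 2 - z) * Ym) *
        ((Th * (Tm * Yh * EE U W α β (2 * z) * Yh * Tm) * Th) *
          (Ym * EE U W α β (3 / 2 - z) * Sm)) := by
    have e1 : (Sm * EE U W α β (3 / 2 - z) * Ym) *
        ((Th * (Tm * Yh * EE U W α β (2 * z) * Yh * Tm) * Th) *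
          (Ym * EE U W α β (3 / 2 - z) * Sm)) =
        Sm * EE U W α β (3 / 2 - z) * (Ym * ((Th * Tm) * (Yh * EE U W α β (2 * z) *
          (Yh * ((Tm * Th) * Ym))))) * EE U W α β (3 / 2 - z) * Sm := by
      simp only [Matrix.mul_assoc]
    rw [e1, hThTm, hTmTh, Matrix.one_mul, Matrix.one_mul, hYhYm, Matrix.mul_one,
      ← Matrix.mul_assoc Ym, hYmYh, Matrix.one_mul]
  rw [hfac]
  refine (ctr_both h c1 _).1.trans ?_
  refine (ctr_both h c2 _).2.trans ?_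
  have hhalf : ((1 / 2 : ℝ) : ℂ) = 1 / 2 := by push_cast; ring
  have m1 : N (Th * (Tm * Yh * EE U W α β (2 * z) * Yh * Tm) * Th) ≤ N (pw Qt σt 1) := by
    rw [hTh, hhalf]
    exact ctr_mid h hQt c3
  refine m1.trans ?_
  rw [← hTe]
  have m2 : N (Yh * X * Yh) ≤ max (N (pw Qy σy 1 * X)) (N (X * pw Qy σy 1)) := by
    rw [hYh, hhalf]
    exact threeS h hQy X
  refine m2.trans ?_
  rw [← hYe]
  apply max_le
  · exact le_of_eq (swapEE h hU hW _ _)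
  · exact le_rfl

/-- `N ((A+B)^2) ≤ N ((A^(2s)+B^(2s))(A^(2-2s)+B^(2-2s)))`. -/
lemma main0 {N : Matrix (Fin n) (Fin n) ℂ → ℝ} (h : UIN N) (hU : U * Uᴴ = 1) (hW : W * Wᴴ = 1)
    (s : ℝ) : N (EE U W α β 1 * EE U W α β 1) ≤
      N (EE U W α β ((2 * s : ℝ) : ℂ) * EE U W α β ((2 - 2 * s : ℝ) : ℂ)) := by
  have h1' : EE U W α β ((1 : ℝ) : ℂ) = EE U W α β 1 := by rw [Complex.ofReal_one]
  obtain ⟨Qs, σs, hQs, hS⟩ := exists_pw (EE_posDef (α := α) (β := β) hU hW 1)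
  rw [h1'] at hS
  set Sm := pw Qs σs ((-(1 / 2) : ℝ) : ℂ) with hSm
  have hG : GoodM fun w : ℂ => Sm *
      EE U W α β (((3 / 2 - s : ℝ) : ℂ) + ((-(1 - 2 * s) : ℝ) : ℂ) * w) *
      EE U W α β (((2 * s : ℝ) : ℂ) + ((2 * (1 - 2 * s) : ℝ) : ℂ) * w) *
      EE U W α β (((3 / 2 - s : ℝ) : ℂ) + ((-(1 - 2 * s) : ℝ) : ℂ) * w) * Sm :=
    ((((goodM_const Sm).mul (goodM_EE _ _)).mul (goodM_EE _ _)).mul (goodM_EE _ _)).mul
      (goodM_const Sm)
  have key := three h hG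
    (N (EE U W α β ((2 * s : ℝ) : ℂ) * EE U W α β ((2 - 2 * s : ℝ) : ℂ))) (by
      intro y
      have b := bound h hU hW hQs hS s ((1 - 2 * s) * y)
      rw [← hSm] at b
      have e1 : (3 / 2 - ((s : ℂ) + (((1 - 2 * s) * y : ℝ) : ℂ) * I)) =
        ((3 / 2 - s : ℝ) : ℂ) + ((-(1 - 2 * s) : ℝ) : ℂ) * (y * I) := by push_cast; ring
      have e2 : 2 * ((s : ℂ) + (((1 - 2 * s) * y : ℝ) : ℂ) * I) =
        ((2 * s : ℝ) : ℂ) + ((2 * (1 - 2 * s) : ℝ) : ℂ) * (y * I) := by push_cast; ring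
      rw [e1, e2] at b
      exact b) (by
      intro y
      have b := bound h hU hW hQs hS (1 - s) ((1 - 2 * s) * y)
      rw [← hSm] at b
      have e1 : (3 / 2 - (((1 - s : ℝ) : ℂ) + (((1 - 2 * s) * y : ℝ) : ℂ) * I)) =
        ((3 / 2 - s : ℝ) : ℂ) + ((-(1 - 2 * s) : ℝ) : ℂ) * (1 + y * I) := by push_cast; ring
      have e2 : 2 * (((1 - s : ℝ) : ℂ) + (((1 - 2 * s) * y : ℝ) : ℂ) * I) =
        ((2 * s : ℝ) : ℂ) + ((2 * (1 - 2 * s) : ℝ) : ℂ) * (1 + y * I) := by push_cast; ring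
      rw [e1, e2] at b
      refine b.trans (le_of_eq ?_)
      rw [swapEE h hU hW]
      congr 3 <;> congr 1 <;> ring)
  have e1 : ((3 / 2 - s : ℝ) : ℂ) + ((-(1 - 2 * s) : ℝ) : ℂ) * (1 / 2) = 1 := by push_cast; ring
  have e2 : ((2 * s : ℝ) : ℂ) + ((2 * (1 - 2 * s) : ℝ) : ℂ) * (1 / 2) = 1 := by push_cast; ring
  simp only [e1, e2] at key
  have e3 : Sm * EE U W α β 1 * EE U W α β 1 * EE U W α β 1 * Sm =
      EE U W α β 1 * EE U W α β 1 := by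
    rw [hS, hSm]
    simp only [pw_mul hQs]
    congr 1
    push_cast; ring
  rwa [e3] at key

/-- `N (A^2 + B^2) ≤ N ((A+B)^2)`. -/
lemma main1 {N : Matrix (Fin n) (Fin n) ℂ → ℝ} (h : UIN N) (hU : U * Uᴴ = 1) (hW : W * Wᴴ = 1) :
    N (EE U W α β 2) ≤ N (EE U W α β 1 * EE U W α β 1) := by
  have h1' : EE U W α β ((1 : ℝ) : ℂ) = EE U W α β 1 := by rw [Complex.ofReal_one]
  obtain ⟨Qs, σs, hQs, hS⟩ := exists_pw (EE_posDef (α := α) (β := β) hU hW 1)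
  rw [h1'] at hS
  set Sm := pw Qs σs ((-(1 / 2) : ℝ) : ℂ) with hSm
  have hSms : Smᴴ = Sm := pw_star_real _
  have i1 : Sm * EE U W α β 1 * Sm = 1 := by
    rw [hS, hSm, pw_mul hQs, pw_mul hQs]
    have : ((-(1 / 2) : ℝ) : ℂ) + 1 + ((-(1 / 2) : ℝ) : ℂ) = 0 := by push_cast; ring
    rw [this, pw_zero hQs]
  have pS : (pw U α ((1 / 2 : ℝ) : ℂ) * Sm)ᴴ * (pw U α ((1 / 2 : ℝ) : ℂ) * Sm) +
      (pw W β ((1 / 2 : ℝ) : ℂ) * Sm)ᴴ * (pw W β ((1 / 2 : ℝ) : ℂ) * Sm) = 1 := by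
    rw [conjTranspose_mul, conjTranspose_mul, hSms, pw_star_real, pw_star_real]
    calc _ = Sm * (pw U α ((1 / 2 : ℝ) : ℂ) * pw U α ((1 / 2 : ℝ) : ℂ) +
          pw W β ((1 / 2 : ℝ) : ℂ) * pw W β ((1 / 2 : ℝ) : ℂ)) * Sm := by noncomm_ring
      _ = Sm * EE U W α β 1 * Sm := by
        rw [pw_eq hU _ _ 1 (by push_cast; ring), pw_eq hW _ _ 1 (by push_cast; ring)]
        rfl
      _ = 1 := i1
  have pS' : (pw U α ((1 / 2 : ℝ) : ℂ) * Sm)ᴴ * (pw U α ((1 / 2 : ℝ) : ℂ) * Sm) +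
      (-(pw W β ((1 / 2 : ℝ) : ℂ) * Sm))ᴴ * (-(pw W β ((1 / 2 : ℝ) : ℂ) * Sm)) = 1 := by
    rw [conjTranspose_neg, neg_mul_neg]
    exact pS
  set K := Sm * (pw U α 1 - pw W β 1) * Sm with hK
  have hKc : Ctr K := by
    have h1 := ctr_of_pair pS' pS
    have e : (pw U α ((1 / 2 : ℝ) : ℂ) * Sm)ᴴ * (pw U α ((1 / 2 : ℝ) : ℂ) * Sm) +
        (pw W β ((1 / 2 : ℝ) : ℂ) * Sm)ᴴ * (-(pw W β ((1 / 2 : ℝ) : ℂ) * Sm)) = K := by
      rw [conjTranspose_mul, conjTranspose_mul, hSms, pw_star_real, pw_star_real]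
      calc _ = Sm * (pw U α ((1 / 2 : ℝ) : ℂ) * pw U α ((1 / 2 : ℝ) : ℂ) -
            pw W β ((1 / 2 : ℝ) : ℂ) * pw W β ((1 / 2 : ℝ) : ℂ)) * Sm := by noncomm_ring
        _ = K := by
          rw [pw_eq hU _ _ 1 (by push_cast; ring), pw_eq hW _ _ 1 (by push_cast; ring)]
    rwa [e] at h1
  set S := pw Qs σs 1 with hSd
  set Sh := pw Qs σs (1 / 2) with hSh
  have a1 : Sh * Sm = 1 := pw_one hQs _ _ (by push_cast; ring)
  have a2 : Sm * Sh = 1 := pw_one hQs _ _ (by push_cast; ring)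
  have a3 : Sh * Sh = S := pw_eq hQs _ _ _ (by ring)
  have hD : Sh * K * Sh = pw U α 1 - pw W β 1 := by
    rw [hK]
    calc _ = (Sh * Sm) * (pw U α 1 - pw W β 1) * (Sm * Sh) := by simp only [Matrix.mul_assoc]
      _ = _ := by rw [a1, a2, Matrix.one_mul, Matrix.mul_one]
  have hDD : (pw U α 1 - pw W β 1) * (pw U α 1 - pw W β 1) = Sh * (K * S * K) * Sh := by
    rw [← hD, ← a3]
    simp only [Matrix.mul_assoc]
  have hbd : N ((pw U α 1 - pw W β 1) * (pw U α 1 - pw W β 1)) ≤ N (S * S) := by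
    rw [hDD]
    refine (threeS h hQs (K * S * K)).trans ?_
    rw [← hSd]
    have hSKS : N (S * K * S) ≤ N (S * S) := by
      -- apply the three lines lemma to `S^2`
      have e0 : S * S = pw Qs (fun i => 2 * σs i) 1 := by
        rw [hSd, pw_mul hQs]
        unfold pw
        congr 3
        funext i
        congr 1
        push_cast
        ring
      have e1 : S = pw Qs (fun i => 2 * σs i) (1 / 2) := by
        rw [hSd]
        unfold pw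
        congr 3
        funext i
        congr 1
        push_cast
        ring
      have := ctr_mid (α := fun i => 2 * σs i) h hQs hKc
      rwa [← e0, ← e1] at this
    apply max_le
    · have e : S * (K * S * K) = (S * K * S) * K := by simp only [Matrix.mul_assoc]
      rw [e]
      exact (ctr_both h hKc _).2.trans hSKS
    · have e : K * S * K * S = K * (S * K * S) := by simp only [Matrix.mul_assoc]
      rw [e]
      exact (ctr_both h hKc _).1.trans hSKS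
  have hsum : EE U W α β 2 = (1 / 2 : ℂ) • (EE U W α β 1 * EE U W α β 1 +
      (pw U α 1 - pw W β 1) * (pw U α 1 - pw W β 1)) := by
    have e1 : EE U W α β 1 * EE U W α β 1 + (pw U α 1 - pw W β 1) * (pw U α 1 - pw W β 1) =
        (2 : ℂ) • (pw U α 1 * pw U α 1 + pw W β 1 * pw W β 1) := by
      unfold EE
      rw [two_smul]
      noncomm_ring
    rw [e1, smul_smul, pw_eq hU _ _ 2 (by norm_num), pw_eq hW _ _ 2 (by norm_num)]
    norm_num
    rfl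
  rw [hsum, h.smul]
  have hhalf : ‖(1 / 2 : ℂ)‖ = 1 / 2 := by norm_num
  rw [hhalf]
  have h3 := h.add (EE U W α β 1 * EE U W α β 1)
    ((pw U α 1 - pw W β 1) * (pw U α 1 - pw W β 1))
  rw [hS] at h3 ⊢
  linarith

end Pool.Agent.H34R5.Bourin
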