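import Mathlib
import Pool.Agent.H34R5.BourinC

set_option autoImplicit false
open Matrix Complex
open scoped ComplexConjugate ComplexOrder Topology

namespace Pool.Agent.H34R5.Bourin

variable {n : ℕ} {U W : Matrix (Fin n) (Fin n) ℂ} {α β : Fin n → ℝ}

lemma UIN.sub_comm {N : Matrix (Fin n) (Fin n) ℂ → ℝ} (h : UIN N) (X Y : Matrix (Fin n) (Fin n) ℂ) :
    N (X - Y) = N (Y - X) := by
  have h1 : X - Y = (-1 : ℂ) • (Y - X) := by rw [neg_one_smul, neg_sub]
  rw [h1, h.smul, norm_neg, norm_one, one_mul]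

lemma UIN.sum {N : Matrix (Fin n) (Fin n) ℂ → ℝ} (h : UIN N) {ι : Type*} (s : Finset ι)
    (f : ι → Matrix (Fin n) (Fin n) ℂ) : N (∑ i ∈ s, f i) ≤ ∑ i ∈ s, N (f i) := by
  classical
  induction s using Finset.induction_on with
  | empty => simp [h.zero]
  | insert a s ha ih =>
    rw [Finset.sum_insert ha, Finset.sum_insert ha]
    exact (h.add _ _).trans (by linarith)

lemma UIN.le_entries {N : Matrix (Fin n) (Fin n) ℂ → ℝ} (h : UIN N)
    (X : Matrix (Fin n) (Fin n) ℂ) :
    N X ≤ ∑ i, ∑ j, ‖X i j‖ * N (Matrix.single i j 1) := by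
  conv_lhs => rw [Matrix.matrix_eq_sum_single X]
  refine (h.sum _ _).trans (Finset.sum_le_sum fun i _ => ?_)
  refine (h.sum _ _).trans (Finset.sum_le_sum fun j _ => ?_)
  have h1 : Matrix.single i j (X i j) = (X i j) • Matrix.single i j (1 : ℂ) := by
    rw [Matrix.smul_single, smul_eq_mul, mul_one]
  rw [h1, h.smul]

lemma UIN.cont {N : Matrix (Fin n) (Fin n) ℂ → ℝ} (h : UIN N) : Continuous N := by
  rw [continuous_iff_continuousAt]
  intro X
  rw [ContinuousAt, tendsto_iff_norm_sub_tendsto_zero]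
  have hc : Continuous fun Y : Matrix (Fin n) (Fin n) ℂ =>
      ∑ i, ∑ j, ‖(Y - X) i j‖ * N (Matrix.single i j 1) := by
    refine continuous_finsetSum _ fun i _ => continuous_finsetSum _ fun j _ => ?_
    refine Continuous.mul ?_ continuous_const
    exact ((continuous_id.sub continuous_const).matrix_elem i j).norm
  have h0 := hc.tendsto' X 0 (by simp)
  refine squeeze_zero (fun _ => norm_nonneg _) (fun Y => ?_) h0
  refine le_trans ?_ (h.le_entries (Y - X))
  rw [Real.norm_eq_abs, abs_le]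
  have h1 := h.add (Y - X) X
  have h2 := h.add (X - Y) Y
  rw [sub_add_cancel] at h1 h2
  rw [h.sub_comm X Y] at h2
  constructor <;> linarith

/-- powers of `U diag(a) U*`. -/
noncomputable def rp (U : Matrix (Fin n) (Fin n) ℂ) (a : Fin n → ℝ) (t : ℝ) :
    Matrix (Fin n) (Fin n) ℂ :=
  U * Matrix.diagonal (fun i => Complex.ofReal (Real.rpow (a i) t)) * U.conjTranspose

lemma rp_pw (a : Fin n → ℝ) (ha : ∀ i, 0 < a i) (r t : ℝ) (hr : r ≠ 0) :
    rp U a t = pw U (fun i => r / 2 * Real.log (a i)) ((2 * (t / r) : ℝ) : ℂ) := by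
  unfold rp pw
  congr 3
  funext i
  have h1 : Real.rpow (a i) t = Real.exp (Real.log (a i) * t) := Real.rpow_def_of_pos (ha i) t
  rw [h1, ← Complex.ofReal_mul, ← Complex.ofReal_exp]
  congr 2
  field_simp

lemma pos_case {N : Matrix (Fin n) (Fin n) ℂ → ℝ} (h : UIN N) (hU : U * Uᴴ = 1) (hW : W * Wᴴ = 1)
    (a b : Fin n → ℝ) (ha : ∀ i, 0 < a i) (hb : ∀ i, 0 < b i) (p q : ℝ) (hp : 0 < p) (hq : 0 < q) :
    N (rp U a (p + q) + rp W b (p + q)) ≤
      N ((rp U a p + rp W b p) * (rp U a q + rp W b q)) := by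
  have hr : p + q ≠ 0 := by positivity
  rw [rp_pw a ha (p + q) (p + q) hr, rp_pw b hb (p + q) (p + q) hr,
    rp_pw a ha (p + q) p hr, rp_pw b hb (p + q) p hr,
    rp_pw a ha (p + q) q hr, rp_pw b hb (p + q) q hr]
  have e1 : ((2 * ((p + q) / (p + q)) : ℝ) : ℂ) = 2 := by
    rw [div_self hr]; push_cast; ring
  have e2 : 2 * (q / (p + q)) = 2 - 2 * (p / (p + q)) := by
    field_simp; ring
  rw [e1, e2]
  exact (main1 h hU hW).trans (main0 h hU hW (p / (p + q)))

lemma rp_cont (U : Matrix (Fin n) (Fin n) ℂ) (a : Fin n → ℝ) (t : ℝ) (ht : 0 < t) :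
    Continuous fun ε : ℝ => rp U (fun i => a i + ε) t := by
  unfold rp
  refine Continuous.matrix_mul (Continuous.matrix_mul continuous_const ?_) continuous_const
  refine Continuous.matrix_diagonal ?_
  refine continuous_pi fun i => ?_
  refine Complex.continuous_ofReal.comp ?_
  exact (continuous_const.add continuous_id).rpow_const fun _ => Or.inr ht.le

/-- **Bourin's inequality** for all unitarily invariant seminorms. -/
theorem bourin {N : Matrix (Fin n) (Fin n) ℂ → ℝ} (h : UIN N) (hU : U * Uᴴ = 1) (hW : W * Wᴴ = 1)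
    (a b : Fin n → ℝ) (ha : ∀ i, 0 ≤ a i) (hb : ∀ i, 0 ≤ b i) (p q : ℝ) (hp : 0 < p) (hq : 0 < q) :
    N (rp U a (p + q) + rp W b (p + q)) ≤
      N ((rp U a p + rp W b p) * (rp U a q + rp W b q)) := by
  have hf : Continuous fun ε : ℝ =>
      N (rp U (fun i => a i + ε) (p + q) + rp W (fun i => b i + ε) (p + q)) :=
    h.cont.comp ((rp_cont U a _ (by positivity)).add (rp_cont W b _ (by positivity)))
  have hg : Continuous fun ε : ℝ =>
      N ((rp U (fun i => a i + ε) p + rp W (fun i => b i + ε) p) *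
        (rp U (fun i => a i + ε) q + rp W (fun i => b i + ε) q)) :=
    h.cont.comp (((rp_cont U a _ hp).add (rp_cont W b _ hp)).matrix_mul
      ((rp_cont U a _ hq).add (rp_cont W b _ hq)))
  have hf0 := hf.tendsto 0
  have hg0 := hg.tendsto 0
  simp only [add_zero] at hf0 hg0
  refine le_of_tendsto_of_tendsto (hf0.mono_left (nhdsWithin_le_nhds (s := Set.Ioi 0)))
    (hg0.mono_left (nhdsWithin_le_nhds (s := Set.Ioi 0))) ?_
  filter_upwards [self_mem_nhdsWithin] with ε hε
  have hε' : (0 : ℝ) < ε := hε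
  exact pos_case h hU hW _ _ (fun i => by have := ha i; positivity)
    (fun i => by have := hb i; positivity) p q hp hq

end Pool.Agent.H34R5.Bourin
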